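import Pool.Agent.R892.CC.Cov
import Pool.Agent.R892.CC.Ell

/-!
# The corona problem is invariant under finite branched coverings; complex ellipsoids
-/

set_option autoImplicit false

namespace Pool.Agent.Results.MP_ca0fc2_an.FiniteQuotients

open Pool.Agent.R892.CC

/-- The corona problem (`Cor D`: bounded holomorphic `f_1, …, f_N` on `D` with `∑ |f_j|² > δ > 0`
admit bounded holomorphic `h_j` with `∑ f_j h_j = 1`; `CoronaC D N δ C`: the same with the bounds
`δ² < ∑ |f_j|² ≤ 1` and `∑ |h_j|² ≤ C²`) is invariant under finite branched coverings `D' → D`,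
with control of the constants; in particular under unramified coverings and under quotients by
finite groups.  It is invariant under `D ↦ {z : (z_1^{k_1}, …, z_n^{k_n}) ∈ D}` for every open set
`D ⊆ ℂⁿ`, and has the same answer for the unit ball as for every complex ellipsoid
`∑ |z_j|^{2 q_j} < 1` with rational exponents `q_j > 0`. -/
theorem result :
    -- finite branched coverings
    (∀ m : ℕ, 0 < m → ∀ N : ℕ, ∃ c : ℝ, 0 < c ∧
      ∀ (Y X : Type) [NormedAddCommGroup Y] [NormedSpace ℂ Y] [NormedAddCommGroup X]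
        [NormedSpace ℂ X] (D' : Set Y) (D : Set X) (π : Y → X) (fib : X → Fin m → Y),
        IsCov D' D π fib → (Cor D ↔ Cor D') ∧ ∀ δ C : ℝ, 0 < δ →
          (CoronaC D' N δ C → CoronaC D N δ C) ∧
          (CoronaC D (m * (N - 1) + 1) (c * δ ^ m) C → CoronaC D' N δ C)) ∧
    -- unramified coverings are of this kind
    (∀ (Y X : Type) [NormedAddCommGroup Y] [NormedSpace ℂ Y] [NormedAddCommGroup X]
        [NormedSpace ℂ X] (m : ℕ) (D' : Set Y) (D : Set X) (π : Y → X),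
        Unram m D' D π → ∃ fib : X → Fin m → Y, IsCov D' D π fib) ∧
    -- quotients by finite groups
    (∀ (G : Type) [Group G] [Fintype G] (N : ℕ), ∃ c : ℝ, 0 < c ∧
      ∀ (Y X : Type) [NormedAddCommGroup Y] [NormedSpace ℂ Y] [NormedAddCommGroup X]
        [NormedSpace ℂ X] (ρ : G →* Equiv.Perm Y) (D' : Set Y) (D : Set X) (π : Y → X),
        IsQuot ρ D' D π → (Cor D ↔ Cor D') ∧ ∀ δ C : ℝ, 0 < δ →
          (CoronaC D' N δ C → CoronaC D N δ C) ∧
          (CoronaC D (Fintype.card G * (N - 1) + 1) (c * δ ^ Fintype.card G) C →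
            CoronaC D' N δ C)) ∧
    -- power maps of the coordinates of `ℂⁿ`
    (∀ (n : ℕ) (k : Fin n → ℕ), (∀ j, k j ≠ 0) → ∀ N : ℕ, ∃ c : ℝ, 0 < c ∧
      ∀ D : Set (Fin n → ℂ), IsOpen D →
        (Cor D ↔ Cor {z : Fin n → ℂ | (fun j => z j ^ k j) ∈ D}) ∧ ∀ δ C : ℝ, 0 < δ →
          (CoronaC {z : Fin n → ℂ | (fun j => z j ^ k j) ∈ D} N δ C → CoronaC D N δ C) ∧
          (CoronaC D ((∏ j, k j) * (N - 1) + 1) (c * δ ^ (∏ j, k j)) C →
            CoronaC {z : Fin n → ℂ | (fun j => z j ^ k j) ∈ D} N δ C)) ∧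
    -- complex ellipsoids with commensurable exponents
    (∀ (n : ℕ) (p q : Fin n → ℝ), (∀ j, 0 < p j) → (∀ j, 0 < q j) →
      (∀ j, ∃ r : ℚ, p j = r * q j) →
      (Cor {z : Fin n → ℂ | ∑ j, ‖z j‖ ^ (2 * p j) < 1} ↔
        Cor {z : Fin n → ℂ | ∑ j, ‖z j‖ ^ (2 * q j) < 1})) ∧
    -- the unit ball and the complex ellipsoids with rational exponents
    (∀ (n : ℕ) (q : Fin n → ℚ), (∀ j, 0 < q j) →
      (Cor {z : Fin n → ℂ | ∑ j, ‖z j‖ ^ 2 < 1} ↔
        Cor {z : Fin n → ℂ | ∑ j, ‖z j‖ ^ (2 * (q j : ℝ)) < 1})) := by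
  refine ⟨?_, ?_, ?_, ?_, ?_, ?_⟩
  · intro m hm N
    obtain ⟨c, hc, h⟩ := cov_up m hm N
    exact ⟨c, hc, fun Y X _ _ _ _ D' D π fib hQ => ⟨cov_cor hm hQ, fun δ C hδ =>
      ⟨cov_down hQ hm, h Y X D' D π fib hQ δ C hδ⟩⟩⟩
  · intro Y X _ _ _ _ m D' D π h
    exact h.isCov
  · intro G _ _ N
    obtain ⟨c, hc, h⟩ := quot_up G N
    exact ⟨c, hc, fun Y X _ _ _ _ ρ D' D π hQ => ⟨quot_cor hQ, fun δ C hδ =>
      ⟨quot_down hQ, h Y X ρ D' D π hQ δ C hδ⟩⟩⟩
  · intro n k hk N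
    obtain ⟨c, hc, h⟩ := coronaC_powS_up k hk Finset.univ N
    refine ⟨c, hc, fun D hD => ?_⟩
    have h1 := cor_powS k hk hD Finset.univ
    simp only [powS_univ] at h1 h
    refine ⟨h1, fun δ C hδ => ⟨fun h2 => ?_, h D hD δ C hδ⟩⟩
    refine coronaC_powS_down k hk hD Finset.univ ?_
    simp only [powS_univ]
    exact h2
  · intro n p q hp hq hr
    exact cor_Ell hp hq hr
  · intro n q hq
    have h1 : {z : Fin n → ℂ | ∑ j, ‖z j‖ ^ 2 < 1} = Ell fun _ => 1 := by
      ext z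
      simp only [Ell, Set.mem_ofPred_eq, mul_one]
      have h2 : ∀ j, ‖z j‖ ^ (2 : ℝ) = ‖z j‖ ^ 2 := fun j => by
        rw [← Real.rpow_natCast]
        norm_num
      rw [Finset.sum_congr rfl fun j _ => h2 j]
    rw [h1]
    exact cor_Ell (q := fun j => (q j : ℝ)) (fun _ => one_pos) (fun j => by exact_mod_cast hq j)
      fun j => ⟨(q j)⁻¹, by
        have := (hq j).ne'
        push_cast
        rw [inv_mul_cancel₀ (by exact_mod_cast this)]⟩

end Pool.Agent.Results.MP_ca0fc2_an.FiniteQuotients
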