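import Mathlib
import Pool.Agent.R314.CorLoc

/-!
# The corona problem on the unit ball of `ℂⁿ` is local over the functions with affine fibres

Let `B` be the unit ball of `ℂⁿ` and let `R` be the set of the functions `f ∘ ψ`, where `f` is bounded
and holomorphic on the disc and `ψ : B → 𝔻` is holomorphic with affine fibres (for instance the first
coordinate of any automorphism of `B`, in particular any bounded holomorphic function of
`⟨z, a⟩`, `|a| = 1`). The point `z` of `B` is sent to the values of the functions in `R`; a fibre over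
the closure of the image is given by an ultrafilter `𝒰` on `B` and is described by the filter
`Fib 𝒰` of the sets `{z ∈ B : |h_i (z) - lim_𝒰 h_i| < η}`, `h_1, …, h_m ∈ R`.

We prove that bounded holomorphic functions `F_1, …, F_N` on `B` admit bounded holomorphic
`g_1, …, g_N` with `∑ F_j g_j = 1` as soon as, along each of these fibres, some of the `F_j` are
bounded away from zero together and are asymptotic to elements of the closed algebra generated by `R`
and ONE arbitrary bounded holomorphic function `G`, which may depend on the fibre.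

The linear functions are in `R`, so that `Fib 𝒰` is finer than the neighbourhoods of the limit point
of `𝒰` in the closed ball. The theorem therefore contains the corona theorem for the closed algebra
generated by `R` and one arbitrary bounded holomorphic function, its versions with another arbitrary
function at each boundary point, and versions in which the arbitrary functions change from one region
`{|h| < 1/3}`, `h ∈ R`, to another.

The starting helper files `Pool.Agent.Y263.GF`, `Pool.Agent.Y263.LF` contain the corona theorem for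
tuples `f_1 ∘ ψ_1, …, f_K ∘ ψ_K, G` and the version of the theorem which is local over the closed
ball; the version which is local over `R` is new.
-/

set_option autoImplicit false

open Metric Set Filter Topology

namespace Pool.Agent.Results.MP_ca0fc2_an.LocalCorona

/-- `ℂⁿ` -/
abbrev V (n : ℕ) := EuclideanSpace ℂ (Fin n)

/-- `F` is holomorphic and bounded on the unit ball. -/
def Hinf {n : ℕ} (F : V n → ℂ) : Prop :=
  DifferentiableOn ℂ F (ball 0 1) ∧ ∃ C : ℝ, ∀ z ∈ ball (0 : V n) 1, ‖F z‖ ≤ C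

/-- `ψ` is a holomorphic map from the unit ball to the unit disc, and the fibre of `ψ` through any
point `z` is the part in the ball of the affine subspace `z + ker ψ'(z)`. -/
def HasAffineFibres {n : ℕ} (ψ : V n → ℂ) : Prop :=
  DifferentiableOn ℂ ψ (ball 0 1) ∧ (∀ z ∈ ball (0 : V n) 1, ‖ψ z‖ < 1) ∧
    ∀ z ∈ ball (0 : V n) 1, ∀ z' ∈ ball (0 : V n) 1, ψ z' = ψ z ↔ fderiv ℂ ψ z (z' - z) = 0

/-- the functions `f ∘ ψ`, `f` bounded holomorphic on the unit disc, `ψ` with affine fibres -/
def R (n : ℕ) : Set (V n → ℂ) :=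
  {h | ∃ (f : ℂ → ℂ) (ψ : V n → ℂ), DifferentiableOn ℂ f (ball 0 1) ∧
    (∃ C : ℝ, ∀ w ∈ ball (0 : ℂ) 1, ‖f w‖ ≤ C) ∧ HasAffineFibres ψ ∧
    ∀ z ∈ ball (0 : V n) 1, h z = f (ψ z)}

/-- the closed algebra generated by `T`: the functions which can be approximated uniformly on the
unit ball by polynomials in the functions of `T` -/
def Cl {n : ℕ} (T : Set (V n → ℂ)) : Set (V n → ℂ) :=
  {a | ∀ ε : ℝ, 0 < ε → ∃ b ∈ Algebra.adjoin ℂ T, ∀ z ∈ ball (0 : V n) 1, ‖a z - b z‖ ≤ ε}

/-- the filter generated by the sets `{z ∈ B : |h z - lim_𝒰 h| < η}`, `h ∈ R n`, `η > 0` -/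
noncomputable def Fib {n : ℕ} (𝒰 : Ultrafilter (V n)) : Filter (V n) :=
  𝓟 (ball 0 1) ⊓ ⨅ (h : V n → ℂ) (_ : h ∈ R n) (c : ℂ) (_ : Tendsto h 𝒰 (𝓝 c)), comap h (𝓝 c)

/-- **The corona problem on the ball is local over the functions with affine fibres.** -/
theorem result {n N : ℕ} (F : Fin N → V n → ℂ) (hF : ∀ j, Hinf (F j))
    (hloc : ∀ 𝒰 : Ultrafilter (V n), ball (0 : V n) 1 ∈ 𝒰 →
      ∃ (G : V n → ℂ) (S : Finset (Fin N)) (a : Fin N → V n → ℂ) (c : ℝ), Hinf G ∧ 0 < c ∧
        (∀ᶠ z in Fib 𝒰, c ≤ ∑ j ∈ S, ‖F j z‖) ∧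
        ∀ j ∈ S, a j ∈ Cl (insert G (R n)) ∧ Tendsto (fun z => F j z - a j z) (Fib 𝒰) (𝓝 0)) :
    ∃ g : Fin N → V n → ℂ, (∀ j, Hinf (g j)) ∧
      ∀ z ∈ ball (0 : V n) 1, ∑ j, F j z * g j z = 1 := by
  have hR : R n = Pool.Agent.Y263.GF.SF (V n) := by
    ext h
    constructor
    · rintro ⟨f, ψ, h1, h2, h3, h4⟩
      exact ⟨f, ψ, h1, h2, ⟨⟨h3.1, h3.2.2⟩, h3.2.1⟩, h4⟩
    · rintro ⟨f, ψ, h1, h2, h3, h4⟩
      exact ⟨f, ψ, h1, h2, ⟨h3.1.1, h3.2, h3.1.2⟩, h4⟩
  have hB : ∀ h ∈ R n, Pool.Agent.R314.CorLoc.Bh h := by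
    rintro h ⟨f, ψ, h1, ⟨C, h2⟩, h3, h4⟩
    have hm : ∀ z ∈ ball (0 : V n) 1, ψ z ∈ ball (0 : ℂ) 1 := fun z hz =>
      mem_ball_zero_iff.2 (h3.2.1 z hz)
    exact ⟨(h1.comp h3.1 hm).congr h4, C, fun z hz => by rw [h4 z hz]; exact h2 _ (hm z hz)⟩
  rw [hR] at hB
  refine Pool.Agent.R314.CorLoc.main Pool.Agent.Y263.GF.tup_SF hB F hF (fun 𝒰 h𝒰 => ?_)
  have h1 := hloc 𝒰 h𝒰
  unfold Fib at h1
  rw [hR] at h1
  exact h1

end Pool.Agent.Results.MP_ca0fc2_an.LocalCorona
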