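import Mathlib
import Pool.Agent.R223.Tor.Ex2
import Pool.Agent.R314.CorLoc

/-!
# The corona problem on the ball of `ℂ²` is local over functions with monomial fibres

`B` is the unit ball of `ℂ²`. For a boundary point `b` let
`psi b z = (z₀ / b₀) ^ (|b₀| ^ 2) * (z₁ / b₁) ^ (|b₁| ^ 2)` (near `b`; principal branches). Then
`|psi b| < 1` on `B` near `b`, `psi b b = 1`, and, if `b₀, b₁ ≠ 0`, the level sets of `psi b` are
curved: they are not affine, they are tangent to the sphere along the torus through `b`, and the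
holomorphic functions `z₀ ^ k * z₁ ^ l`, `|b₀| ^ 2 : |b₁| ^ 2 = k : l`, peak exactly on this torus.
For `b₀ b₁ = 0`, `psi b z = ⟨b, z⟩`. Functions of `psi b` are of the form `z ↦ F (psi b z • b)`.

A *chart system* is a choice, for each boundary point `b`, of an automorphism `φ b` of the ball
which maps a boundary point `β b` to `b` (for instance `φ b = id`, `β b = b`). `D φ β` is the set of
the bounded holomorphic functions `F` which are asymptotic, at each boundary point `b`, to a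
function of the monomial in the chart:
`F (φ b z) - F (φ b (psi (β b) z • β b)) → 0` as `z → β b`.

`result`:
1. Localisation with uniform constants: let `F_1, …, F_K` satisfy this condition (with a given
   modulus `r b` at each boundary point `b`), let `G_1, …, G_M` be ARBITRARY. If the Bezout equation
   for the `G_j` is solvable on the set where all `|F_k| < ε`, then the Bezout equation for
   `F_1, …, F_K, G_1, …, G_M` is solvable on `B`. (`M = 1`: one arbitrary function.)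
2. The corona problem is local over `D φ β`: bounded holomorphic `F_1, …, F_N` have bounded
   holomorphic `g_j` with `∑ F_j g_j = 1` if along each fibre over `D φ β` some of them are bounded
   away from zero together and asymptotic to elements of the closed algebra generated by `D φ β`
   and ONE arbitrary bounded holomorphic function (which may depend on the fibre).
3. Let `U` be unitary, `k ≠ 0` in the closed quadrant, and let `FlowC U k` be the set of the bounded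
   holomorphic functions on which, in the unitary coordinates `U`, the torus rotations
   `(z₀, z₁) ↦ (e^{i k₂ θ} z₀, e^{-i k₁ θ} z₁)` act continuously in the sup norm (and which depend
   only on one of the coordinates if `k` is on the boundary of the quadrant). Their singularities lie
   on the torus `Sing U k`. If the charts at the points of this torus are `U`, then
   `FlowC U k ⊆ D φ β`. In particular, for the trivial charts `φ b = id`, `D φ β` contains
   `FlowC id k` for ALL `k` simultaneously.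
4. `f (c * z₀ ^ k * z₁ ^ l) ∈ FlowC id (k, l)` for every bounded holomorphic `f` on the disc.

Proof: `Pool.Agent.R223.Tor`. Near `b`, `B` is the tube domain `Γ (Re β) < Im w` in the logarithmic
coordinates `w = - i log psi b`, `β = log (z₀ / b₀) - log (z₁ / b₁)`, with a strictly convex `Γ`. A
solution on the part of the tube over the set where the functions of `w` are small is patched with
the trivial solution: the dbar-equation in `w` is solved on the half-plane with Carleson measures,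
after extending bounded holomorphic functions from the slices `w = const`, which are rectangles, to
the tube with uniform bounds (decomposition into pieces which extend to half-planes; `Dec`, `Tub`,
`LocA`). Uniform solvability near all boundary points implies
solvability on `B` (`Bd`). Norm-continuity under the flow gives the asymptotics by Cauchy's theorem
on rectangles (`Ex`, `Ex2`).
-/

set_option autoImplicit false

open Metric Set Filter Topology

namespace Pool.Agent.Results.MP_ca0fc2_an.MonomialFibres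

/-- `ℂ²` -/
abbrev V := EuclideanSpace ℂ (Fin 2)

/-- `F` is holomorphic on the unit ball and bounded by `1`. -/
def HB (F : V → ℂ) : Prop :=
  DifferentiableOn ℂ F (ball 0 1) ∧ ∀ z ∈ ball (0 : V) 1, ‖F z‖ ≤ 1

/-- `F` is holomorphic and bounded on the unit ball. -/
def Hinf (F : V → ℂ) : Prop :=
  DifferentiableOn ℂ F (ball 0 1) ∧ ∃ C : ℝ, ∀ z ∈ ball (0 : V) 1, ‖F z‖ ≤ C

/-- The monomial `(z₀ / b₀) ^ (|b₀| ^ 2) * (z₁ / b₁) ^ (|b₁| ^ 2)` (with principal branches; it is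
used for `z` near `b`; if `b₁ = 0` it is `z₀ / b₀`, if `b₀ = 0` it is `z₁ / b₁`). -/
noncomputable def psi (b z : V) : ℂ :=
  Complex.exp (∑ j, ((‖b j‖ ^ 2 : ℝ) : ℂ) * Complex.log (z j / b j))

/-- `φ` is an automorphism of the unit ball which maps the boundary point `β` to `b`. -/
def IsChart (φ : V → V) (β b : V) : Prop :=
  ‖β‖ = 1 ∧ DifferentiableOn ℂ φ (ball 0 1) ∧ MapsTo φ (ball 0 1) (ball 0 1) ∧
    Tendsto φ (𝓝[ball 0 1] β) (𝓝 b) ∧ ∃ χ : V → V,
      DifferentiableOn ℂ χ (ball 0 1) ∧ MapsTo χ (ball 0 1) (ball 0 1) ∧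
      Tendsto χ (𝓝[ball 0 1] b) (𝓝 β) ∧ ∀ z ∈ ball (0 : V) 1, χ (φ z) = z ∧ φ (χ z) = z

/-- `F ∘ φ` is asymptotic at `β`, with the modulus `r`, to a function of the monomial `psi β`. -/
def Asy (φ : V → V) (β : V) (r : ℝ → ℝ) (F : V → ℂ) : Prop :=
  ∀ e : ℝ, 0 < e → ∀ z ∈ ball (0 : V) 1, ‖z - β‖ < r e → ‖F (φ z) - F (φ (psi β z • β))‖ ≤ e

/-- the bounded holomorphic functions which are asymptotic, at each boundary point `b`, to a
function of the monomial `psi (β b)` in the chart `φ b` -/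
def D (φ : V → V → V) (β : V → V) : Set (V → ℂ) :=
  {F | Hinf F ∧ ∀ b : V, ‖b‖ = 1 →
    ∃ r : ℝ → ℝ, (∀ e, 0 < e → 0 < r e) ∧ Asy (φ b) (β b) r F}

/-- the torus rotations -/
noncomputable def rot (k : ℝ × ℝ) (θ : ℝ) (z : V) : V :=
  !₂[Complex.exp (k.2 * (θ * Complex.I)) * z 0, Complex.exp (-(k.1 * (θ * Complex.I))) * z 1]

/-- the bounded holomorphic functions on which the torus rotations `rot k`, in the unitary
coordinates `U`, act continuously in the sup norm, and which, if `k.1 = 0` or `k.2 = 0`, depend only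
on the second, respectively the first, of these coordinates -/
def FlowC (U : V ≃ₗᵢ[ℂ] V) (k : ℝ × ℝ) : Set (V → ℂ) :=
  {F | Hinf F ∧
    (∀ ε : ℝ, 0 < ε → ∃ η : ℝ, 0 < η ∧ ∀ θ : ℝ, |θ| ≤ η → ∀ z ∈ ball (0 : V) 1,
      ‖F (U (rot k θ z)) - F (U z)‖ ≤ ε) ∧
    (k.1 = 0 → ∀ z ∈ ball (0 : V) 1, F (U z) = F (U !₂[0, z 1])) ∧
    (k.2 = 0 → ∀ z ∈ ball (0 : V) 1, F (U z) = F (U !₂[z 0, 0]))}

/-- the singular torus: the boundary points whose coordinates in the unitary system `U` have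
`|z₀| ^ 2 : |z₁| ^ 2 = k₁ : k₂` -/
def Sing (U : V ≃ₗᵢ[ℂ] V) (k : ℝ × ℝ) : Set V :=
  {b | ‖b‖ = 1 ∧ k.2 * ‖(U.symm b) 0‖ ^ 2 = k.1 * ‖(U.symm b) 1‖ ^ 2}

/-- the closed algebra generated by `T`: the functions which can be approximated uniformly on the
unit ball by polynomials in the functions of `T` -/
def Cl (T : Set (V → ℂ)) : Set (V → ℂ) :=
  {a | ∀ ε : ℝ, 0 < ε → ∃ b ∈ Algebra.adjoin ℂ T, ∀ z ∈ ball (0 : V) 1, ‖a z - b z‖ ≤ ε}

/-- the filter generated by the sets `{z ∈ B : |h z - lim_𝒰 h| < η}`, `h ∈ T`, `η > 0` -/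
noncomputable def Fib (T : Set (V → ℂ)) (𝒰 : Ultrafilter V) : Filter V :=
  𝓟 (ball 0 1) ⊓ ⨅ (h : V → ℂ) (_ : h ∈ T) (c : ℂ) (_ : Tendsto h 𝒰 (𝓝 c)), comap h (𝓝 c)

/-- the Bezout equation for the functions `F j` has holomorphic solutions on `U` bounded by `C` -/
def SolvableOn {ι : Type} [Fintype ι] (U : Set V) (F : ι → V → ℂ) (C : ℝ) : Prop :=
  ∃ g : ι → V → ℂ, (∀ j, DifferentiableOn ℂ (g j) U) ∧ (∀ j, ∀ z ∈ U, ‖g j z‖ ≤ C) ∧
    ∀ z ∈ U, ∑ j, F j z * g j z = 1

theorem D_eq (φ : V → V → V) (β : V → V) : D φ β = Pool.Agent.R223.Tor.Dc φ β := by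
  ext F
  constructor
  · rintro ⟨h1, h2⟩
    refine ⟨h1, fun b hb e he => ?_⟩
    obtain ⟨r, hr, h3⟩ := h2 b hb
    exact ⟨r e, hr e he, h3 e he⟩
  · rintro ⟨h1, h2⟩
    refine ⟨h1, fun b hb => ?_⟩
    have h3 : ∀ e : ℝ, ∃ r : ℝ, 0 < e → 0 < r ∧ ∀ z ∈ ball (0 : V) 1,
        ‖z - β b‖ < r → ‖F (φ b z) - F (φ b (psi (β b) z • β b))‖ ≤ e := by
      intro e
      by_cases he : 0 < e
      · obtain ⟨r, hr⟩ := h2 b hb e he
        exact ⟨r, fun _ => hr⟩
      · exact ⟨0, fun h => absurd h he⟩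
    choose r hr using h3
    exact ⟨r, fun e he => (hr e he).1, fun e he => (hr e he).2⟩

theorem ch_of {φ : V → V → V} {β : V → V} (h : ∀ b : V, ‖b‖ = 1 → IsChart (φ b) (β b) b) :
    ∃ χ : V → V → V, Pool.Agent.R223.Tor.Ch φ χ β := by
  classical
  have h1 : ∀ b : V, ∃ χ : V → V, ‖b‖ = 1 → DifferentiableOn ℂ χ (ball 0 1) ∧
      MapsTo χ (ball 0 1) (ball 0 1) ∧ Tendsto χ (𝓝[ball 0 1] b) (𝓝 (β b)) ∧
      ∀ z ∈ ball (0 : V) 1, χ (φ b z) = z ∧ φ b (χ z) = z := by
    intro b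
    by_cases hb : ‖b‖ = 1
    · obtain ⟨-, -, -, -, χ, h2⟩ := h b hb
      exact ⟨χ, fun _ => h2⟩
    · exact ⟨id, fun hb' => absurd hb' hb⟩
  choose χ hχ using h1
  refine ⟨χ, fun b hb => ?_, fun b hb => (h b hb).1, fun b hb => (hχ b hb).2.2.1⟩
  exact ⟨(h b hb).2.1, (hχ b hb).1, (h b hb).2.2.1, (hχ b hb).2.1,
    fun z hz => ((hχ b hb).2.2.2 z hz).1, fun z hz => ((hχ b hb).2.2.2 z hz).2⟩

theorem flow_eq (U : V ≃ₗᵢ[ℂ] V) (k : ℝ × ℝ) : FlowC U k = Pool.Agent.R223.Tor.FlowC U k := rfl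

/-- **The corona problem on the ball of `ℂ²` is local over functions with monomial fibres.** -/
theorem result :
    (∀ (φ : V → V → V) (β : V → V), (∀ b : V, ‖b‖ = 1 → IsChart (φ b) (β b) b) →
      (∀ (K M : ℕ) (ε Q : ℝ), 0 < ε → ∀ r : V → ℝ → ℝ, (∀ b e, 0 < e → 0 < r b e) →
        ∃ C : ℝ, ∀ (F : Fin K → V → ℂ) (G : Fin M → V → ℂ), (∀ k, HB (F k)) → (∀ j, HB (G j)) →
          (∀ b : V, ‖b‖ = 1 → ∀ k, Asy (φ b) (β b) (r b) (F k)) →
          SolvableOn {z | z ∈ ball (0 : V) 1 ∧ ∀ k, ‖F k z‖ < ε} G Q →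
          SolvableOn (ball (0 : V) 1) (Sum.elim F G) C) ∧
      (∀ (N : ℕ) (F : Fin N → V → ℂ), (∀ j, Hinf (F j)) →
        (∀ 𝒰 : Ultrafilter V, ball (0 : V) 1 ∈ 𝒰 →
          ∃ (G : V → ℂ) (S : Finset (Fin N)) (a : Fin N → V → ℂ) (c : ℝ), Hinf G ∧ 0 < c ∧
            (∀ᶠ z in Fib (D φ β) 𝒰, c ≤ ∑ j ∈ S, ‖F j z‖) ∧
            ∀ j ∈ S, a j ∈ Cl (insert G (D φ β)) ∧
              Tendsto (fun z => F j z - a j z) (Fib (D φ β) 𝒰) (𝓝 0)) →
        ∃ g : Fin N → V → ℂ, (∀ j, Hinf (g j)) ∧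
          ∀ z ∈ ball (0 : V) 1, ∑ j, F j z * g j z = 1) ∧
      (∀ (U : V ≃ₗᵢ[ℂ] V) (k : ℝ × ℝ), 0 ≤ k.1 → 0 ≤ k.2 → k ≠ 0 →
        (∀ b ∈ Sing U k, β b = U.symm b ∧ ∀ z ∈ ball (0 : V) 1, φ b z = U z) →
        FlowC U k ⊆ D φ β)) ∧
    (∀ k : ℝ × ℝ, 0 ≤ k.1 → 0 ≤ k.2 → k ≠ 0 →
      FlowC (LinearIsometryEquiv.refl ℂ V) k ⊆ D (fun _ z => z) (fun b => b)) ∧
    (∀ (k l : ℕ) (c : ℂ) (f : ℂ → ℂ), (∀ z ∈ ball (0 : V) 1, ‖c * z 0 ^ k * z 1 ^ l‖ < 1) →
      DifferentiableOn ℂ f (ball 0 1) → (∃ C : ℝ, ∀ w ∈ ball (0 : ℂ) 1, ‖f w‖ ≤ C) →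
      (fun z : V => f (c * z 0 ^ k * z 1 ^ l)) ∈
        FlowC (LinearIsometryEquiv.refl ℂ V) ((k : ℝ), (l : ℝ))) := by
  have key : ∀ (φ : V → V → V) (β : V → V), (∀ b : V, ‖b‖ = 1 → IsChart (φ b) (β b) b) →
      ∀ (U : V ≃ₗᵢ[ℂ] V) (k : ℝ × ℝ), 0 ≤ k.1 → 0 ≤ k.2 → k ≠ 0 →
        (∀ b ∈ Sing U k, β b = U.symm b ∧ ∀ z ∈ ball (0 : V) 1, φ b z = U z) →
        FlowC U k ⊆ D φ β := by
    intro φ β hch U k hk1 hk2 hk hU
    rw [D_eq, flow_eq]
    exact Pool.Agent.R223.Tor.flow_D (fun b hb => (hch b hb).2.2.1) (fun b hb => (hch b hb).1)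
      (fun b hb => (hch b hb).2.2.2.1) U hk1 hk2 hk (fun b hb h => hU b ⟨hb, h⟩)
  refine ⟨fun φ β hch => ⟨?_, ?_, key φ β hch⟩, ?_, ?_⟩
  · intro K M ε Q hε r hr
    obtain ⟨χ, hχ⟩ := ch_of hch
    obtain ⟨C, H⟩ := Pool.Agent.R223.Tor.glob K M (ε := ε) (Q := max Q 0) hε
      (le_max_right _ _) hχ hr
    refine ⟨C, fun F G hF hG has hS => H F G hF hG (fun b hb i => has b hb i) ?_⟩
    obtain ⟨g, g1, g2, g3⟩ := hS
    exact ⟨g, g1, fun j z hz => (g2 j z hz).trans (le_max_left _ _), g3⟩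
  · intro N F hF hloc
    obtain ⟨χ, hχ⟩ := ch_of hch
    refine Pool.Agent.R314.CorLoc.main (𝓡 := Pool.Agent.R223.Tor.Dc φ β)
      (Pool.Agent.R223.Tor.tup_D hχ) (fun h hh => hh.1) F hF (fun 𝒰 h𝒰 => ?_)
    have h1 := hloc 𝒰 h𝒰
    rw [D_eq] at h1
    exact h1
  · intro k hk1 hk2 hk
    refine key _ _ (fun b hb => ?_) _ k hk1 hk2 hk (fun b _ => ⟨rfl, fun z _ => rfl⟩)
    exact ⟨hb, differentiableOn_id, fun z hz => hz, tendsto_id.mono_left nhdsWithin_le_nhds,
      fun z => z, differentiableOn_id, fun z hz => hz, tendsto_id.mono_left nhdsWithin_le_nhds,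
      fun z _ => ⟨rfl, rfl⟩⟩
  · intro k l c f hc hf hfb
    rw [flow_eq]
    exact Pool.Agent.R223.Tor.mon_flow (LinearIsometryEquiv.refl ℂ V) hc hf hfb

end Pool.Agent.Results.MP_ca0fc2_an.MonomialFibres
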