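import Mathlib
import Pool.Agent.R223.Crn.Rot

/-!
# The corona problem on the ball: iterated Whitney localisation along complex geodesics

`B` is the unit ball of `ℂⁿ`. For a unit vector `p`, the maps `mv p a` (`|a| < 1`) are the
automorphisms of `B` which translate the complex geodesic through `0` and `p`, and the sets
`mv p a (B ∩ ball q r)`, `q` a unit vector orthogonal to `p`, are Whitney cells relative to the
boundary circle of this geodesic.

A set `ℱ` of holomorphic functions bounded by `1` is *resolvable* (`Resolvable`) if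

* all its members are of the form `f ∘ ψ`, `f` holomorphic on the disc, `|f| ≤ 1`, `ψ : B → 𝔻`
  holomorphic with affine fibres; or
* for some `p` and for each `F ∈ ℱ` there is an automorphism `ψ` of `B` (depending on `F`) such that
  at each unit vector `q ⟂ p` the functions `F ∘ ψ ∘ mv p a`, `|a| < 1`, are asymptotic to members
  `H` (depending on `F` and `a`) of a resolvable set `ℋ_q`, uniformly in `F` and `a`.

(The definition is inductive: a resolvable set is resolved after finitely many localisations along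
each branch; the geodesics used on the different cells are arbitrary.)

`result`:
1. Localisation with uniform constants: if `F_1, …, F_K` are taken from resolvable sets and
   `G_1, …, G_M` are arbitrary, and if the Bezout equation for the `G_j` is solvable on the set where
   all `|F_k| < ε`, then the Bezout equation for `F_1, …, F_K, G_1, …, G_M` is solvable on `B`.
   (`M = 1`: one arbitrary function; `M = 0`: corona data from resolvable sets.)
2. The corona problem is local over the set `W n` of the multiples of members of resolvable sets: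
   bounded holomorphic `F_1, …, F_N` have bounded holomorphic `g_j` with `∑ F_j g_j = 1` if along
   each fibre over `W n` some of them are bounded away from zero together and asymptotic to elements
   of the closed algebra generated by `W n` and ONE arbitrary bounded holomorphic function (which may
   depend on the fibre).
3. `W n` contains the functions with affine fibres composed with bounded functions (`R n`), and all
   bounded holomorphic functions on which the rotations about SOME complex geodesic (any one, not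
   necessarily through `0`) act continuously in the sup norm (`Rot n`), for instance the bounded
   holomorphic functions which are polynomials in `z - ⟨p, z⟩ p`, with coefficients that are
   arbitrary (unbounded) functions of `⟨p, z⟩`.

Proof: `Pool.Agent.R223.Crn`. Automorphisms of the ball preserve functions with affine fibres
(`Aff`); one Whitney localisation (`Pool.Agent.TH310.Cor.whit1`, starting files) replaces, near `q`,
the member of the first family by its asymptote, at the cost of one more function `(1 - ⟨q, z⟩)/2`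
with affine fibres, and leaves all other functions arbitrary up to an automorphism (`Good`); the
recursion ends at the localisation theorem for functions with affine fibres of the starting files
(`Pool.Agent.Y263.GF.loc_aff`). Norm-continuity of rotations gives scaled equicontinuity at `q` by
Cauchy's theorem on rectangles (`Rot`).
-/

set_option autoImplicit false

open Metric Set Filter Topology

namespace Pool.Agent.Results.MP_ca0fc2_an.ResolvableFamilies

/-- `ℂⁿ` -/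
abbrev V (n : ℕ) := EuclideanSpace ℂ (Fin n)

/-- `F` is holomorphic on the unit ball and bounded by `1`. -/
def HB {n : ℕ} (F : V n → ℂ) : Prop :=
  DifferentiableOn ℂ F (ball 0 1) ∧ ∀ z ∈ ball (0 : V n) 1, ‖F z‖ ≤ 1

/-- `F` is holomorphic and bounded on the unit ball. -/
def Hinf {n : ℕ} (F : V n → ℂ) : Prop :=
  DifferentiableOn ℂ F (ball 0 1) ∧ ∃ C : ℝ, ∀ z ∈ ball (0 : V n) 1, ‖F z‖ ≤ C

/-- `ψ` is a holomorphic map from the unit ball to the unit disc, and the fibre of `ψ` through any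
point `z` is the part in the ball of the affine subspace `z + ker ψ'(z)`. -/
def HasAffineFibres {n : ℕ} (ψ : V n → ℂ) : Prop :=
  DifferentiableOn ℂ ψ (ball 0 1) ∧ (∀ z ∈ ball (0 : V n) 1, ‖ψ z‖ < 1) ∧
    ∀ z ∈ ball (0 : V n) 1, ∀ z' ∈ ball (0 : V n) 1, ψ z' = ψ z ↔ fderiv ℂ ψ z (z' - z) = 0

/-- `ψ` is an automorphism of the unit ball. -/
def IsAut {n : ℕ} (ψ : V n → V n) : Prop :=
  DifferentiableOn ℂ ψ (ball 0 1) ∧ MapsTo ψ (ball 0 1) (ball 0 1) ∧ ∃ φ : V n → V n,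
    DifferentiableOn ℂ φ (ball 0 1) ∧ MapsTo φ (ball 0 1) (ball 0 1) ∧
    ∀ z ∈ ball (0 : V n) 1, φ (ψ z) = z ∧ ψ (φ z) = z

/-- The automorphisms of the ball (`‖p‖ = 1`, `|a| < 1`) which translate the complex geodesic
through `0` and `p`: `⟨p, mv p a z⟩ = (⟨p, z⟩ + a) / (1 + conj a ⟨p, z⟩)`. -/
noncomputable def mv {n : ℕ} (p : V n) (a : ℂ) (z : V n) : V n :=
  (1 / (1 + starRingEnd ℂ a * inner ℂ p z)) •
    (((inner ℂ p z : ℂ) + a) • p + ((√(1 - ‖a‖ ^ 2) : ℝ) : ℂ) • (z - (inner ℂ p z : ℂ) • p))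

/-- The rotation by the angle `θ` about the complex geodesic through `0` and `p`. -/
noncomputable def rot {n : ℕ} (p : V n) (θ : ℝ) (z : V n) : V n :=
  (inner ℂ p z : ℂ) • p + Complex.exp (θ * Complex.I) • (z - (inner ℂ p z : ℂ) • p)

/-- Resolvable sets of functions. -/
inductive Resolvable {n : ℕ} : Set (V n → ℂ) → Prop
  /-- sets of functions `f ∘ ψ`, `|f| ≤ 1`, `ψ` with affine fibres -/
  | affine (ℱ : Set (V n → ℂ)) (h : ∀ F ∈ ℱ, ∃ (f : ℂ → ℂ) (ψ : V n → ℂ),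
      DifferentiableOn ℂ f (ball 0 1) ∧ (∀ w ∈ ball (0 : ℂ) 1, ‖f w‖ ≤ 1) ∧ HasAffineFibres ψ ∧
      ∀ z ∈ ball (0 : V n) 1, F z = f (ψ z)) : Resolvable ℱ
  /-- sets of functions which are uniformly asymptotic, on the Whitney cells at each `q` along some
  complex geodesic, to members of a resolvable set `ℋ q` -/
  | whitney (ℱ : Set (V n → ℂ)) (p : V n) (hp : ‖p‖ = 1) (ℋ : V n → Set (V n → ℂ))
      (hℋ : ∀ q, ‖q‖ = 1 → (inner ℂ p q : ℂ) = 0 → Resolvable (ℋ q))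
      (r : V n → ℝ → ℝ) (hr : ∀ q ε, 0 < ε → 0 < r q ε)
      (h : ∀ F ∈ ℱ, HB F ∧ ∃ ψ : V n → V n, IsAut ψ ∧
        ∀ q : V n, ‖q‖ = 1 → (inner ℂ p q : ℂ) = 0 → ∀ a : ℂ, ‖a‖ < 1 → ∃ H ∈ ℋ q,
          ∀ ε : ℝ, 0 < ε → ∀ z ∈ ball (0 : V n) 1, ‖z - q‖ < r q ε →
            ‖F (ψ (mv p a z)) - H z‖ ≤ ε) : Resolvable ℱ

/-- the multiples of the members of resolvable sets -/
def W (n : ℕ) : Set (V n → ℂ) :=
  {F | ∃ (c : ℂ) (ℱ : Set (V n → ℂ)), Resolvable ℱ ∧ ∃ F' ∈ ℱ,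
    ∀ z ∈ ball (0 : V n) 1, F z = c * F' z}

/-- the functions `f ∘ ψ`, `f` bounded holomorphic on the unit disc, `ψ` with affine fibres -/
def R (n : ℕ) : Set (V n → ℂ) :=
  {h | ∃ (f : ℂ → ℂ) (ψ : V n → ℂ), DifferentiableOn ℂ f (ball 0 1) ∧
    (∃ C : ℝ, ∀ w ∈ ball (0 : ℂ) 1, ‖f w‖ ≤ C) ∧ HasAffineFibres ψ ∧
    ∀ z ∈ ball (0 : V n) 1, h z = f (ψ z)}

/-- the bounded holomorphic functions on which the rotations about some complex geodesic (the image
of the geodesic through `0` and `p` under an automorphism `ψ`) act continuously in the sup norm -/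
def Rot (n : ℕ) : Set (V n → ℂ) :=
  {F | Hinf F ∧ ∃ (ψ : V n → V n) (p : V n), IsAut ψ ∧ ‖p‖ = 1 ∧ ∀ ε : ℝ, 0 < ε →
    ∃ η : ℝ, 0 < η ∧ ∀ θ : ℝ, |θ| ≤ η → ∀ z ∈ ball (0 : V n) 1,
      ‖F (ψ (rot p θ z)) - F (ψ z)‖ ≤ ε}

/-- the closed algebra generated by `T`: the functions which can be approximated uniformly on the
unit ball by polynomials in the functions of `T` -/
def Cl {n : ℕ} (T : Set (V n → ℂ)) : Set (V n → ℂ) :=
  {a | ∀ ε : ℝ, 0 < ε → ∃ b ∈ Algebra.adjoin ℂ T, ∀ z ∈ ball (0 : V n) 1, ‖a z - b z‖ ≤ ε}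

/-- the filter generated by the sets `{z ∈ B : |h z - lim_𝒰 h| < η}`, `h ∈ W n`, `η > 0` -/
noncomputable def Fib {n : ℕ} (𝒰 : Ultrafilter (V n)) : Filter (V n) :=
  𝓟 (ball 0 1) ⊓ ⨅ (h : V n → ℂ) (_ : h ∈ W n) (c : ℂ) (_ : Tendsto h 𝒰 (𝓝 c)), comap h (𝓝 c)

/-- the Bezout equation for the functions `F j` has holomorphic solutions on `U` bounded by `C` -/
def SolvableOn {n : ℕ} {ι : Type} [Fintype ι] (U : Set (V n)) (F : ι → V n → ℂ) (C : ℝ) : Prop :=
  ∃ g : ι → V n → ℂ, (∀ j, DifferentiableOn ℂ (g j) U) ∧ (∀ j, ∀ z ∈ U, ‖g j z‖ ≤ C) ∧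
    ∀ z ∈ U, ∑ j, F j z * g j z = 1

theorem aut_of {n : ℕ} {ψ : V n → V n} (h : IsAut ψ) :
    ∃ φ : V n → V n, Pool.Agent.TH310.Cor.Aut ψ φ := by
  obtain ⟨h1, h2, φ, h3, h4, h5⟩ := h
  exact ⟨φ, h1, h3, h2, h4, fun z hz => (h5 z hz).1, fun z hz => (h5 z hz).2⟩

theorem of_aut {n : ℕ} {ψ φ : V n → V n} (h : Pool.Agent.TH310.Cor.Aut ψ φ) : IsAut ψ :=
  ⟨h.d1, h.m1, φ, h.d2, h.m2, fun z hz => ⟨h.i1 z hz, h.i2 z hz⟩⟩

theorem ad_iff {n : ℕ} {ψ : V n → ℂ} : HasAffineFibres ψ ↔ Pool.Agent.Y263.GF.AD ψ :=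
  ⟨fun h => ⟨⟨h.1, h.2.2⟩, h.2.1⟩, fun h => ⟨h.1.1, h.2, h.1.2⟩⟩

theorem Resolvable.rs {n : ℕ} {ℱ : Set (V n → ℂ)} (h : Resolvable ℱ) :
    Pool.Agent.R223.Crn.Rs ℱ := by
  induction h with
  | affine ℱ h =>
    refine Pool.Agent.R223.Crn.Rs.base _ fun F hF => ?_
    obtain ⟨f, ψ, h1, h2, h3, h4⟩ := h F hF
    exact ⟨f, ψ, h1, h2, ad_iff.1 h3, h4⟩
  | whitney ℱ p hp ℋ hℋ r hr h ih =>
    refine Pool.Agent.R223.Crn.Rs.whit _ p hp r hr ℋ ih fun F hF => ?_
    obtain ⟨h1, ψ, hψ, h2⟩ := h F hF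
    obtain ⟨φ, hφ⟩ := aut_of hψ
    exact ⟨h1, ψ, φ, hφ, fun q hq hpq a ha => h2 q hq hpq a (mem_ball_zero_iff.1 ha)⟩

theorem rs_resolvable {n : ℕ} {ℱ : Set (V n → ℂ)} (h : Pool.Agent.R223.Crn.Rs ℱ) :
    Resolvable ℱ := by
  induction h with
  | base ℱ h =>
    refine Resolvable.affine _ fun F hF => ?_
    obtain ⟨f, ψ, h1, h2, h3, h4⟩ := h F hF
    exact ⟨f, ψ, h1, h2, ad_iff.2 h3, h4⟩
  | whit ℱ p hp r hr ℋ hℋ h ih =>
    refine Resolvable.whitney _ p hp ℋ ih r hr fun F hF => ?_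
    obtain ⟨h1, ψ, φ, hψ, h2⟩ := h F hF
    exact ⟨h1, ψ, of_aut hψ, fun q hq hpq a ha => h2 q hq hpq a (mem_ball_zero_iff.2 ha)⟩

theorem W_eq (n : ℕ) : W n = {F | Pool.Agent.R223.Crn.W F} := by
  ext F
  constructor
  · rintro ⟨c, ℱ, h1, F', h2, h3⟩
    exact ⟨c, ℱ, h1.rs, F', h2, h3⟩
  · rintro ⟨c, ℱ, h1, F', h2, h3⟩
    exact ⟨c, ℱ, rs_resolvable h1, F', h2, h3⟩

/-- **Corona theorems for resolvable functions.** -/
theorem result (n : ℕ) :
    (∀ (K M : ℕ) (𝔉 : Fin K → Set (V n → ℂ)), (∀ k, Resolvable (𝔉 k)) →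
      ∀ ε Q : ℝ, 0 < ε → ∃ C : ℝ, ∀ (F : Fin K → V n → ℂ) (G : Fin M → V n → ℂ),
        (∀ k, F k ∈ 𝔉 k) → (∀ j, HB (G j)) →
        SolvableOn {z | z ∈ ball (0 : V n) 1 ∧ ∀ k, ‖F k z‖ < ε} G Q →
        SolvableOn (ball (0 : V n) 1) (Sum.elim F G) C) ∧
    (∀ (N : ℕ) (F : Fin N → V n → ℂ), (∀ j, Hinf (F j)) →
      (∀ 𝒰 : Ultrafilter (V n), ball (0 : V n) 1 ∈ 𝒰 →
        ∃ (G : V n → ℂ) (S : Finset (Fin N)) (a : Fin N → V n → ℂ) (c : ℝ), Hinf G ∧ 0 < c ∧
          (∀ᶠ z in Fib 𝒰, c ≤ ∑ j ∈ S, ‖F j z‖) ∧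
          ∀ j ∈ S, a j ∈ Cl (insert G (W n)) ∧
            Tendsto (fun z => F j z - a j z) (Fib 𝒰) (𝓝 0)) →
      ∃ g : Fin N → V n → ℂ, (∀ j, Hinf (g j)) ∧
        ∀ z ∈ ball (0 : V n) 1, ∑ j, F j z * g j z = 1) ∧
    R n ⊆ W n ∧ Rot n ⊆ W n := by
  refine ⟨?_, ?_, ?_, ?_⟩
  · intro K M 𝔉 h𝔉 ε Q hε
    obtain ⟨C, hC, H⟩ := Pool.Agent.R223.Crn.good_all (Fin K) 𝔉 (fun k => (h𝔉 k).rs)
      Empty (Fin M) ε (max Q 0) hε (le_max_right _ _)
    refine ⟨C, fun F G hF hG hS => ?_⟩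
    obtain ⟨g, g1, g2, g3⟩ := H (fun e => nomatch e) F G (fun e => nomatch e)
      (fun k => Pool.Agent.R223.Crn.sub_AC _ (hF k)) hG (by
        obtain ⟨g, g1, g2, g3⟩ := hS
        have hsub : {z : V n | z ∈ ball (0 : V n) 1 ∧ (∀ i : Empty, ‖(nomatch i : V n → ℂ) z‖ < ε) ∧
            ∀ k, ‖F k z‖ < ε} ⊆ {z | z ∈ ball (0 : V n) 1 ∧ ∀ k, ‖F k z‖ < ε} :=
          fun z hz => ⟨hz.1, hz.2.2⟩
        exact ⟨g, fun j => (g1 j).mono hsub,
          fun j z hz => (g2 j z (hsub hz)).trans (le_max_left _ _), fun z hz => g3 z (hsub hz)⟩)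
    refine ⟨fun o => g (Sum.inr o), fun o => g1 _, fun o => g2 _, fun z hz => ?_⟩
    rw [← g3 z hz]
    rw [Fintype.sum_sum_type (fun o => (Sum.elim (fun e : Empty => (nomatch e : V n → ℂ))
      (Sum.elim F G)) o z * g o z)]
    simp
  · intro N F hF hloc
    refine Pool.Agent.R314.CorLoc.main (𝓡 := {F : V n → ℂ | Pool.Agent.R223.Crn.W F})
      Pool.Agent.R223.Crn.tup_W (fun h hh => Pool.Agent.R223.Crn.W.bh hh) F hF (fun 𝒰 h𝒰 => ?_)
    have h1 := hloc 𝒰 h𝒰
    unfold Fib at h1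
    rw [W_eq] at h1
    exact h1
  · rintro h ⟨f, ψ, h1, h2, h3, h4⟩
    rw [W_eq]
    exact Pool.Agent.R223.Crn.R_W h1 h2 (ad_iff.1 h3) h4
  · rintro F ⟨hF, ψ, p, hψ, hp, h⟩
    rw [W_eq]
    obtain ⟨φ, hφ⟩ := aut_of hψ
    exact Pool.Agent.R223.Crn.rot_W hF.1 hF.2 hφ hp h

end Pool.Agent.Results.MP_ca0fc2_an.ResolvableFamilies
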